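import Pool.Agent.L7h52.Peak.Func

/-!
# Peak sets for the Lipschitz classes with a divergent distance integral

For every `α ∈ (0, 1)` there is a countable compact peak set `E` for the Lipschitz class `A_α` of
the disc with `∫ dist(ζ, E)^(-α) dm(ζ) = ∞`.  So the assertion of Q1 fails for every `α ∈ (0, 1)`.

Construction: the point `1`, and for every `k` a block of `N_k` equally spaced points in the arc of
angles `[4^(-k-1), 2 * 4^(-k-1))`.  With `s_j = 1 - conj ζ_j * z` and a suitable cut-off `δ_j`, the sum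
`G = M / (1 - z) + ∑ 1 / (s_j^α + δ_j^(α-1) s_j)` has positive real part, and `f = 1 - 1 / G` peaks.
The large imaginary part of `M / (1 - z)` makes `1 / G` small between the points of a block.
-/

set_option autoImplicit false

namespace Pool.Agent.Results.MP_84bbc2_an.CountablePeakSet

open Metric MeasureTheory

/-- The Lipschitz class `A_α`: functions analytic in the open unit disc, continuous on the closed
disc, and Hölder continuous of order `α` on the unit circle. -/
structure InLipschitzClass (α : ℝ) (f : ℂ → ℂ) : Prop where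
  analytic : DifferentiableOn ℂ f (ball (0 : ℂ) 1)
  continuous : ContinuousOn f (closedBall (0 : ℂ) 1)
  lipschitz : ∃ C : ℝ, ∀ z ∈ sphere (0 : ℂ) 1, ∀ w ∈ sphere (0 : ℂ) 1,
    ‖f z - f w‖ ≤ C * ‖z - w‖ ^ α

/-- `E` is a peak set for `A_α`: a closed subset of the unit circle such that some `f` in `A_α` is `1`
on `E` and has modulus `< 1` on the rest of the circle. -/
structure IsPeakSet (α : ℝ) (E : Set ℂ) : Prop where
  closed : IsClosed E
  subset : E ⊆ sphere (0 : ℂ) 1
  peak : ∃ f : ℂ → ℂ, InLipschitzClass α f ∧ (∀ z ∈ E, f z = 1) ∧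
    ∀ z ∈ sphere (0 : ℂ) 1, z ∉ E → ‖f z‖ < 1

/-- **Main theorem.** For every `α ∈ (0, 1)` there is a nonempty countable peak set `E` for `A_α` with
`∫ dist(e^{iθ}, E)^(-α) dθ = ∞`. -/
theorem result : ∀ α : ℝ, 0 < α → α < 1 → ∃ E : Set ℂ, IsPeakSet α E ∧ E.Nonempty ∧ E.Countable ∧
    ∫⁻ θ in Set.Ioc (-Real.pi) Real.pi,
      ENNReal.ofReal (infDist (Complex.exp (θ * Complex.I)) E ^ (-α)) = ⊤ := by
  intro α h0 h1
  obtain ⟨f, hf1, ⟨C, hC0, hf2⟩, hf3, hf4⟩ := Pool.Agent.L7h52.Peak.exists_peak h0 h1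
  refine ⟨Pool.Agent.L7h52.Peak.E α,
    ⟨Pool.Agent.L7h52.Peak.isClosed_E, Pool.Agent.L7h52.Peak.E_subset, f, ⟨hf1, ?_, C, ?_⟩,
      hf3, ?_⟩, ⟨1, Pool.Agent.L7h52.Peak.mem_E.2 (Or.inl rfl)⟩, ?_, ?_⟩
  · intro z hz
    have h2 : Filter.Tendsto (fun w => C * ‖w - z‖ ^ α) (nhdsWithin z (closedBall 0 1))
        (nhds 0) := by
      have h3 : Filter.Tendsto (fun w : ℂ => C * ‖w - z‖ ^ α) (nhds z) (nhds (C * ‖z - z‖ ^ α)) := by
        apply Filter.Tendsto.const_mul
        exact (((continuous_id.sub continuous_const).norm.rpow_const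
          (fun _ => Or.inr h0.le)).tendsto z)
      rw [sub_self, norm_zero, Real.zero_rpow h0.ne', mul_zero] at h3
      exact h3.mono_left nhdsWithin_le_nhds
    rw [ContinuousWithinAt, tendsto_iff_norm_sub_tendsto_zero]
    refine squeeze_zero' (Filter.Eventually.of_forall fun _ => norm_nonneg _) ?_ h2
    filter_upwards [self_mem_nhdsWithin] with w hw
    exact hf2 w hw z hz
  · intro z hz w hw
    exact hf2 z (sphere_subset_closedBall hz) w (sphere_subset_closedBall hw)
  · intro z hz hzE
    exact hf4 z (sphere_subset_closedBall hz) hzE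
  · unfold Pool.Agent.L7h52.Peak.E
    exact (Set.countable_range _).insert 1
  · have h2 := Pool.Agent.L7h52.Peak.integral_eq_top h0
    simp only [Pool.Agent.L7h52.Peak.pt] at h2
    simpa only [mul_comm Complex.I] using h2

end Pool.Agent.Results.MP_84bbc2_an.CountablePeakSet
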